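import Pool.Agent.Q218.HB.Stm4

/-!
# Truncation of a law with a moment (job TRN)
-/

set_option autoImplicit false

open MeasureTheory

namespace Pool.Agent.Q213.HB

open Pool.Agent.Q218.HB

/-- Job TRN. -/
theorem trn : S_TRN := by
  intro ν _ p P T hp hT hint hP hmean
  set g : ℝ → ℝ := fun t => if |t| ≤ T then t else 0 with hg
  have hgm : Measurable g := by
    refine Measurable.ite ?_ measurable_id measurable_const
    exact measurableSet_le (by fun_prop) measurable_const
  have hgb : ∀ t, |g t| ≤ T := by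
    intro t
    simp only [hg]
    split_ifs with h
    · exact h
    · simpa using hT.le
  have hgint : Integrable g ν :=
    Integrable.of_bound hgm.aestronglyMeasurable T (Filter.Eventually.of_forall fun t => by
      rw [Real.norm_eq_abs]; exact hgb t)
  have hTp : 0 < T ^ (p - 1) := Real.rpow_pos_of_pos hT _
  have hTp' : 0 < T ^ p := Real.rpow_pos_of_pos hT _
  -- the identity is integrable
  have hid : Integrable (fun t : ℝ => t) ν := by
    refine Integrable.mono' ((integrable_const (1 : ℝ)).add hint)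
      measurable_id.aestronglyMeasurable (Filter.Eventually.of_forall fun t => ?_)
    simp only [Real.norm_eq_abs, Pi.add_apply]
    rcases le_total |t| 1 with h | h
    · have : 0 ≤ |t| ^ p := Real.rpow_nonneg (abs_nonneg t) p
      linarith
    · have : |t| ^ (1 : ℝ) ≤ |t| ^ p := Real.rpow_le_rpow_of_exponent_le h hp
      rw [Real.rpow_one] at this
      linarith
  -- the pointwise bound of the tail
  have hpt : ∀ t : ℝ, |g t - t| ≤ |t| ^ p / T ^ (p - 1) := by
    intro t
    simp only [hg]
    split_ifs with h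
    · simp only [sub_self, abs_zero]
      positivity
    · rw [not_le] at h
      rw [zero_sub, abs_neg, le_div_iff₀ hTp]
      have h0 : 0 < |t| := hT.trans h
      have h1 : T ^ (p - 1) ≤ |t| ^ (p - 1) := Real.rpow_le_rpow hT.le h.le (by linarith)
      calc |t| * T ^ (p - 1) ≤ |t| * |t| ^ (p - 1) := mul_le_mul_of_nonneg_left h1 h0.le
        _ = |t| ^ p := by
          rw [← Real.rpow_one_add' h0.le (by linarith)]
          congr 1
          ring
  refine ⟨∫ t, g t ∂ν, ?_, ?_, ?_, ?_⟩
  · have h1 : ∫ t, g t ∂ν = ∫ t, (g t - t) ∂ν := by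
      rw [integral_sub hgint hid, hmean, sub_zero]
    rw [h1]
    calc |∫ t, (g t - t) ∂ν| ≤ ∫ t, |g t - t| ∂ν := abs_integral_le_integral_abs
      _ ≤ ∫ t, |t| ^ p / T ^ (p - 1) ∂ν :=
        integral_mono (hgint.sub hid).abs (hint.div_const _) hpt
      _ = (∫ t, |t| ^ p ∂ν) / T ^ (p - 1) := integral_div _ _
      _ ≤ P / T ^ (p - 1) := div_le_div_of_nonneg_right hP hTp.le
  · have h1 := mul_meas_ge_le_integral_of_nonneg (μ := ν) (f := fun t : ℝ => |t| ^ p)
      (Filter.Eventually.of_forall fun t => Real.rpow_nonneg (abs_nonneg t) p) hint (T ^ p)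
    have h2 : ν.real {t : ℝ | T < |t|} ≤ ν.real {t : ℝ | T ^ p ≤ |t| ^ p} :=
      measureReal_mono fun t ht => Real.rpow_le_rpow hT.le (le_of_lt ht) (by linarith)
    have h3 : ν.real {t : ℝ | T < |t|} ≤ P / T ^ p := by
      rw [le_div_iff₀ hTp', mul_comm]
      exact (mul_le_mul_of_nonneg_left h2 hTp'.le).trans (h1.trans hP)
    rw [← ofReal_measureReal]
    exact ENNReal.ofReal_le_ofReal h3
  · have h5 := integral_map (μ := ν) (φ := fun t => g t - ∫ t, g t ∂ν) (f := fun t : ℝ => t)
      (hgm.sub_const _).aemeasurable measurable_id.aestronglyMeasurable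
    refine h5.trans ?_
    rw [integral_sub hgint (integrable_const _)]
    simp
  · have hm : Measurable fun t => g t - ∫ t, g t ∂ν := hgm.sub_const _
    have hμ : |∫ t, g t ∂ν| ≤ T := by
      calc |∫ t, g t ∂ν| ≤ ∫ t, |g t| ∂ν := abs_integral_le_integral_abs
        _ ≤ ∫ _t, T ∂ν := integral_mono hgint.abs (integrable_const _) hgb
        _ = T := by simp
    change (ν.map fun t => g t - ∫ t, g t ∂ν) (Set.Icc (-(2 * T)) (2 * T))ᶜ = 0
    rw [Measure.map_apply hm measurableSet_Icc.compl]
    convert measure_empty (μ := ν) using 2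
    rw [Set.eq_empty_iff_forall_notMem]
    intro t ht
    apply ht
    have h1 := abs_le.1 (hgb t)
    have h2 := abs_le.1 hμ
    constructor <;> dsimp only <;> linarith [h1.1, h1.2, h2.1, h2.2]

end Pool.Agent.Q213.HB
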